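import Pool.Agent.helper88.HT.Spec

/-! Row TOR of helper88's plan HT (MP_069684_lc): the size of the construction `TOT`. -/

set_option autoImplicit false

namespace Pool.Agent.helper88.HT

open Pool.Agent.helper38.Neg Pool.Agent.helper55.NT

/-- arithmetic of the sizes -/
theorem TOR_arith (n l c w : ℕ) (hw : w ≤ (n + 1) ^ l) :
    2 + (w * (2 ^ l * c + (2 ^ l + 1)) + (w + 1)) ≤ (2 * n + 2) ^ l * (c + 6) := by
  have h1 : (2 * n + 2) ^ l = 2 ^ l * (n + 1) ^ l := by
    rw [← Nat.mul_pow]
    congr 1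
  rw [h1]
  have hB : 1 ≤ 2 ^ l := Nat.one_le_two_pow
  have hA : 1 ≤ (n + 1) ^ l := Nat.one_le_pow _ _ (Nat.succ_pos n)
  generalize (n + 1) ^ l = A at hw hA ⊢
  generalize 2 ^ l = B at hB ⊢
  have h2 : w * (B * c + (B + 1)) ≤ A * (B * c + (B + 1)) := Nat.mul_le_mul_right _ hw
  have h3 : A ≤ B * A := by nlinarith
  have h4 : A * (B * c + (B + 1)) = B * A * c + B * A + A := by ring
  have h5 : B * A * (c + 6) = B * A * c + 6 * (B * A) := by ring
  rw [h5]
  rw [h4] at h2
  omega

/-- the gates for one choice of the values -/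
theorem TOR_one {n m c : ℕ} {Φ : (Fin n → Bool) → (Fin n → Bool) → Bool}
    (hΦ : ∀ P Q : Fin n → Fn m, Rel (Set.range P ∪ Set.range Q) c 0
      {fun x => Φ (fun i => P i x) (fun i => Q i x)}) (P Q : Fin n → Fn m)
    (T U : Finset (Fin n)) :
    Rel ((Set.range P ∪ Set.range Q) ∪ ({fun _ => true} ∪ {fun _ => false})) c 0
      {fun x => Φ (fun j => if j ∈ T then decide (j ∈ U) else P j x)
        (fun j => if j ∈ T then decide (j ∉ U) else Q j x)} := by
  have h := hΦ (fun j x => if j ∈ T then decide (j ∈ U) else P j x)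
    (fun j x => if j ∈ T then decide (j ∉ U) else Q j x)
  refine h.mono ?_ le_rfl le_rfl le_rfl
  have hc : ∀ b : Bool, (fun _ => b : Fn m) ∈
      ((Set.range P ∪ Set.range Q) ∪ ({fun _ => true} ∪ {fun _ => false}) : Set (Fn m)) := by
    intro b
    cases b
    · exact Or.inr (Or.inr rfl)
    · exact Or.inr (Or.inl rfl)
  rintro f (⟨j, rfl⟩ | ⟨j, rfl⟩)
  · by_cases hj : j ∈ T
    · have e : (fun x : Fin m → Bool => if j ∈ T then decide (j ∈ U) else P j x) =
          fun _ => decide (j ∈ U) := funext fun _ => if_pos hj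
      change (fun x : Fin m → Bool => if j ∈ T then decide (j ∈ U) else P j x) ∈ _
      rw [e]
      exact hc _
    · have e : (fun x : Fin m → Bool => if j ∈ T then decide (j ∈ U) else P j x) = P j :=
        funext fun _ => if_neg hj
      change (fun x : Fin m → Bool => if j ∈ T then decide (j ∈ U) else P j x) ∈ _
      rw [e]
      exact Or.inl (Or.inl ⟨j, rfl⟩)
  · by_cases hj : j ∈ T
    · have e : (fun x : Fin m → Bool => if j ∈ T then decide (j ∉ U) else Q j x) =
          fun _ => decide (j ∉ U) := funext fun _ => if_pos hj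
      change (fun x : Fin m → Bool => if j ∈ T then decide (j ∉ U) else Q j x) ∈ _
      rw [e]
      exact hc _
    · have e : (fun x : Fin m → Bool => if j ∈ T then decide (j ∉ U) else Q j x) = Q j :=
        funext fun _ => if_neg hj
      change (fun x : Fin m → Bool => if j ∈ T then decide (j ∉ U) else Q j x) ∈ _
      rw [e]
      exact Or.inl (Or.inr ⟨j, rfl⟩)

theorem TOR (h1 : OAS_stmt) (h2 : CNT_stmt) : TOR_stmt := by
  classical
  intro n m l c Φ hΦ P Q
  obtain ⟨F0, hF0⟩ : ∃ F0 : Set (Fn m),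
      F0 = (Set.range P ∪ Set.range Q) ∪ ({fun _ => true} ∪ {fun _ => false}) := ⟨_, rfl⟩
  have hstep0 : Rel (Set.range P ∪ Set.range Q) (1 + 1) (0 + 0)
      ({fun _ => true} ∪ {fun _ => false}) :=
    (Rel.const _ true).union (Rel.const _ false)
  -- the functions
  obtain ⟨g, hg⟩ : ∃ g : Finset (Fin n) → Finset (Fin n) → Fn m, ∀ T U x, g T U x =
      Φ (fun j => if j ∈ T then decide (j ∈ U) else P j x)
        (fun j => if j ∈ T then decide (j ∉ U) else Q j x) := ⟨_, fun _ _ _ => rfl⟩
  have hgRel : ∀ T U, Rel F0 c 0 {g T U} := by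
    intro T U
    have h := TOR_one hΦ P Q T U
    rw [← hF0] at h
    have e : g T U = fun x => Φ (fun j => if j ∈ T then decide (j ∈ U) else P j x)
        (fun j => if j ∈ T then decide (j ∉ U) else Q j x) := funext fun x => hg T U x
    rw [e]
    exact h
  obtain ⟨hT, hhT⟩ : ∃ hT : Finset (Fin n) → Fn m, ∀ T x,
      hT T x = true ↔ ∀ U ∈ T.powerset, g T U x = true :=
    ⟨fun T x => decide (∀ U ∈ T.powerset, g T U x = true), fun T x => by simp⟩
  obtain ⟨S, hS⟩ : ∃ S : Finset (Finset (Fin n)), S = Finset.univ.filter fun T => T.card ≤ l :=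
    ⟨_, rfl⟩
  have hScard : S.card ≤ (n + 1) ^ l := by
    have h := h2 n l
    rw [hS]
    exact h
  -- one set `T`
  have hTRel : ∀ T ∈ S, Rel F0 (2 ^ l * c + (2 ^ l + 1)) 0 {hT T} := by
    intro T hTS
    have hTl : T.card ≤ l := by
      rw [hS] at hTS
      exact (Finset.mem_filter.1 hTS).2
    have a1 := Rel.biUnion (F := F0) T.powerset (fun U => {g T U}) (fun U _ => hgRel T U)
    have a2 := (h1 m (Finset (Fin n)) T.powerset (g T)
      (F0 ∪ ⋃ U ∈ T.powerset, {g T U}) (fun U hU => Or.inr (by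
        simp only [Set.mem_iUnion, exists_prop]
        exact ⟨U, hU, rfl⟩))).2 (hT T) (hhT T)
    have a3 := a1.trans' a2
    have hpow : T.powerset.card ≤ 2 ^ l := by
      rw [Finset.card_powerset]
      exact Nat.pow_le_pow_right (by norm_num) hTl
    refine a3.mono le_rfl le_rfl ?_ le_rfl
    exact Nat.add_le_add (Nat.mul_le_mul_right _ hpow) (Nat.add_le_add_right hpow 1)
  -- all sets `T`
  have b1 := Rel.biUnion (F := F0) S (fun T => {hT T}) hTRel
  have b2 := (h1 m (Finset (Fin n)) S hT (F0 ∪ ⋃ T ∈ S, {hT T}) (fun T hTS => Or.inr (by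
      simp only [Set.mem_iUnion, exists_prop]
      exact ⟨T, hTS, rfl⟩))).1
    (fun x => TOT l Φ (fun i => P i x) (fun i => Q i x)) (by
      intro x
      unfold TOT
      rw [decide_eq_true_iff]
      constructor
      · rintro ⟨T, hTl, hTU⟩
        refine ⟨T, ?_, ?_⟩
        · rw [hS]
          exact Finset.mem_filter.2 ⟨Finset.mem_univ _, hTl⟩
        · rw [hhT]
          intro U hU
          rw [hg]
          exact hTU U (Finset.mem_powerset.1 hU)
      · rintro ⟨T, hTS, hTx⟩
        rw [hS] at hTS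
        refine ⟨T, (Finset.mem_filter.1 hTS).2, ?_⟩
        intro U hU
        have h := (hhT T x).1 hTx U (Finset.mem_powerset.2 hU)
        rw [hg] at h
        exact h)
  have b3 := b1.trans' b2
  rw [hF0] at b3
  have b4 := hstep0.trans' b3
  refine b4.mono le_rfl le_rfl ?_ le_rfl
  exact TOR_arith n l c S.card hScard

end Pool.Agent.helper88.HT
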